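import Pool.Agent.MP_fd75d0_co.Per.Tor

set_option autoImplicit false

namespace Pool.Agent.MP_fd75d0_co.Per

open Finset

/-- the symmetries of the triangle of a graph with even degrees -/
structure Sy (N : ℕ) (t : ℕ → ℕ → F) : Prop where
  rule : ∀ c b, t (c + 1) b = t c b + t c (b + 1)
  mir : ∀ a b c, a + b + c + 1 = N → t c b = t a b
  tri : ∀ a b c, a + b + c + 2 = N → t c (b + 1) + t c (a + 1) + t b (c + 1) = 0

lemma even_key (s : ℕ → F) (N : ℕ)
    (h : ∀ i ≤ N, ∑ a ∈ range i, T s a (i - 1 - a) + ∑ b ∈ range (N - i), T s i b = 0)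
    {g f : R} (hg : g ∈ Hom N) (hf : x * z * f = z * g + ta (z * g) + rh (z * g)) :
    phi s f = 0 := by
  have key : ∃ f', x * z * f' = z * g + ta (z * g) + rh (z * g) ∧ phi s f' = 0 := by
    refine Hom_ind (P := fun g => ∃ f', x * z * f' = z * g + ta (z * g) + rh (z * g) ∧
      phi s f' = 0) ⟨0, by simp, by simp⟩ ?_ ?_ hg
    · rintro f g ⟨f', h1, h2⟩ ⟨g', k1, k2⟩
      refine ⟨f' + g', ?_, by rw [map_add, h2, k2, add_zero]⟩
      simp only [map_add, mul_add]
      linear_combination h1 + k1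
    · intro i j hij
      have hj : j = N - i := by omega
      refine ⟨(∑ a ∈ range i, x ^ a * y ^ (i - 1 - a)) * z ^ j
        + x ^ i * ∑ b ∈ range j, y ^ b * z ^ (j - 1 - b), ?_, ?_⟩
      · have e1 := gs x y z z_eq.symm i
        have e2 := gs y z x yz_x j
        simp only [map_mul, map_pow, ta_x, ta_y, ta_z, rh_x, rh_y, rh_z]
        linear_combination (x * z ^ j) * e1 + (z * x ^ i) * e2 + (x ^ i * z ^ j) * z_eq
          + (x ^ i * z ^ j * x) * two_R
      · have := h i (by omega)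
        rw [map_add, phi_z_pow, map_sum, mul_sum, map_sum]
        simp only [← mul_assoc, phi_mon, ← hj] at this ⊢
        simpa [T] using this
  obtain ⟨f', h1, h2⟩ := key
  rwa [mul_left_cancel₀ (mul_ne_zero x_ne z_ne) (hf.trans h1.symm)]

lemma even_sy (s : ℕ → F) (N e : ℕ)
    (h : ∀ i ≤ N + e, ∑ a ∈ range i, T s a (i - 1 - a) + ∑ b ∈ range (N + e - i), T s i b = 0)
    {q : R} (hq : q ∈ Hom e) (q1 : sg q = q) (q2 : ta q = q) (q3 : rh q = q) :
    Sy N fun c b => phi s (q * (x ^ c * y ^ b)) := by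
  have hz : ∀ a b c : ℕ, phi s (q * (x ^ c * y ^ b * z ^ a)) = phi s (q * (x ^ c * y ^ b)) :=
    fun a b c => by rw [← mul_assoc, phi_z_pow]
  have mir : ∀ a b c, a + b + c + 1 = N →
      phi s (q * (x ^ c * y ^ b)) = phi s (q * (x ^ a * y ^ b)) := by
    intro a b c habc
    have hf : q * (x ^ c * y ^ b * z ^ a) ∈ Hom ((N + e : ℕ) - 1) :=
      Hom_mul hq (mon3_mem c b a rfl) (by push_cast; omega)
    set f := q * (x ^ c * y ^ b * z ^ a) with hfe
    have hG : sg (z * (x * (f + sg f))) = z * (x * (f + sg f)) := by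
      simp only [map_mul, map_add, sg_x, sg_z, sg_sg]; ring
    have hG2 : rh (z * (x * (f + sg f))) = ta (z * (x * (f + sg f))) := by rw [← rh_sg, hG]
    have := even_key s (N + e) h (f := f + sg f)
      (Hom_mul x_mem (add_mem hf (sg_mem hf)) (by ring))
      (by rw [hG2, add_assoc, add_self_R, add_zero]; ring)
    rw [map_add, hfe] at this
    simp only [map_mul, map_pow, sg_x, sg_y, sg_z, q1] at this
    rw [show z ^ c * y ^ b * x ^ a = x ^ a * y ^ b * z ^ c by ring, hz, hz] at this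
    exact eq_of_add_eq_zero_F this
  refine ⟨fun c b => ?_, mir, fun a b c habc => ?_⟩
  · rw [← hz 1 b c, ← map_add]
    congr 1; rw [z_eq]; linear_combination (-(q * x ^ c * y ^ b * y)) * two_R
  · have := even_key s (N + e) h (g := x * y * (q * (x ^ c * y ^ b * z ^ a)))
      (f := q * (x ^ c * y ^ (b + 1) * z ^ a) + q * (x ^ c * y ^ (a + 1) * z ^ b) +
        q * (x ^ a * y ^ (c + 1) * z ^ b))
      (Hom_mul (Hom_mul x_mem y_mem rfl) (Hom_mul hq (mon3_mem c b a rfl) rfl)
        (by push_cast; omega))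
      (by simp only [map_mul, map_pow, ta_x, ta_y, ta_z, rh_x, rh_y, rh_z, q2, q3]; ring)
    rw [map_add, map_add, hz, hz, hz, mir b (c + 1) a (by omega)] at this
    exact this

lemma io_le (t : F) : 0 ≤ io t ∧ io t ≤ 1 := by revert t; decide

lemma sum_io (n : ℕ) (g : ℕ → F) :
    0 ≤ ∑ i ∈ range n, io (g i) ∧ ∑ i ∈ range n, io (g i) ≤ n := by
  refine ⟨sum_nonneg fun i _ => (io_le _).1, ?_⟩
  simpa using sum_le_card_nsmul (range n) (fun i => io (g i)) 1 fun i _ => (io_le _).2

lemma wt_bd {s : ℕ → F} {N J q k c : ℕ} (hk : k * q + c + 2 * J ≤ N)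
    (hp : ∀ b, J ≤ b → b + q + c + J < N → T s c (b + q) = T s c b) :
    k * ∑ i ∈ range q, io (T s c (J + i)) ≤ D s N c ∧
      D s N c + k * q ≤ k * ∑ i ∈ range q, io (T s c (J + i)) + N := by
  have h1 : ∀ l i, l < k → i < q → T s c (J + (l * q + i)) = T s c (J + i) := by
    intro l i hl hi
    induction l with
    | zero => simp
    | succ l ih =>
      rw [← ih (by omega), ← hp (J + (l * q + i)) (by omega) (by nlinarith)]
      congr 1; ring
  have h2 : ∀ l ≤ k, ∑ b ∈ range (l * q), io (T s c (J + b)) =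
      l * ∑ i ∈ range q, io (T s c (J + i)) := by
    intro l hl
    induction l with
    | zero => simp
    | succ l ih =>
      rw [Nat.succ_mul, sum_range_add, ih (by omega),
        sum_congr rfl fun i hi => congrArg io (h1 l i (by omega) (mem_range.1 hi))]
      push_cast; ring
  obtain ⟨r, hr⟩ : ∃ r, N - c = J + k * q + r := ⟨N - c - (J + k * q), by omega⟩
  have e1 := sum_io c fun a => T s a (c - 1 - a)
  have e2 := sum_io J fun b => T s c b
  have e3 := sum_io r fun b => T s c (J + k * q + b)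
  have e4 : (N : ℤ) = c + J + k * q + r := by
    have : N = c + J + k * q + r := by omega
    exact_mod_cast this
  rw [D, Row, hr, sum_range_add, sum_range_add, h2 k le_rfl]
  constructor <;> linarith [e1.1, e1.2, e2.1, e2.2, e3.1, e3.2]

lemma wt_eq {s : ℕ → F} {N J q C c c' : ℕ} {d : ℤ} (hD : ∀ i ≤ N, D s N i = d) (hq : 0 < q)
    (hN : (q + 1) * (C + 2 * J) + q * q ≤ N) (hc : c ≤ C) (hc' : c' ≤ C)
    (hp : ∀ b, J ≤ b → b + q + c + J < N → T s c (b + q) = T s c b)
    (hp' : ∀ b, J ≤ b → b + q + c' + J < N → T s c' (b + q) = T s c' b) :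
    ∑ i ∈ range q, io (T s c (J + i)) = ∑ i ∈ range q, io (T s c' (J + i)) := by
  obtain ⟨L, rfl⟩ : ∃ L, N = C + 2 * J + L := ⟨N - (C + 2 * J), by
    have : C + 2 * J ≤ N := by nlinarith
    omega⟩
  have h1 := Nat.div_add_mod L q
  have h2 := Nat.mod_lt L hq
  have h3 : C + 2 * J + q ≤ L / q := (Nat.le_div_iff_mul_le hq).2 (by nlinarith)
  set k := L / q
  rw [mul_comm] at h1
  have b1 := wt_bd (k := k) (by omega) hp
  have b2 := wt_bd (k := k) (by omega) hp'
  rw [hD _ (by omega)] at b1 b2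
  have h4 : ((C + 2 * J + L : ℕ) : ℤ) < k * q + k := by
    have : C + 2 * J + L < k * q + k := by omega
    exact_mod_cast this
  have h5 : (0 : ℤ) ≤ k := by positivity
  by_contra hne
  rcases lt_or_gt_of_ne hne with h | h
  · nlinarith [mul_le_mul_of_nonneg_left (Int.add_one_le_of_lt h) h5]
  · nlinarith [mul_le_mul_of_nonneg_left (Int.add_one_le_of_lt h) h5]

lemma sum_per {p : ℕ} {φ : ℤ → ℤ} (h : ∀ a, φ (a + p) = φ a) (A : ℤ) :
    ∑ i ∈ range p, φ (A + i) = ∑ i ∈ range p, φ i := by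
  have key : ∀ A : ℤ, ∑ i ∈ range p, φ (A + 1 + i) = ∑ i ∈ range p, φ (A + i) := fun A => by
    rw [← sum_shift (φ := fun i => φ (A + i)) fun a => by rw [← add_assoc, h]]
    exact sum_congr rfl fun i _ => by congr 1; ring
  induction A using Int.induction_on with
  | zero => simp
  | succ n ih => rw [key, ih]
  | pred n ih => rw [← key, sub_add_cancel, ih]

/-- the representative of a residue class in the window starting at J -/
def rep (p J : ℕ) (a : ℤ) : ℕ := J + ((a - J) % p).toNat

lemma rep_spec {p : ℕ} (hp : 0 < p) (J : ℕ) (a : ℤ) :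
    J ≤ rep p J a ∧ rep p J a < J + p ∧ (p : ℤ) ∣ rep p J a - a := by
  have h1 := Int.emod_nonneg (a - J) (show (p : ℤ) ≠ 0 by omega)
  have h2 := Int.emod_lt_of_pos (a - J) (show (0 : ℤ) < p by omega)
  refine ⟨by unfold rep; omega, by unfold rep; omega, -((a - J) / p), ?_⟩
  rw [rep, Nat.cast_add, Int.toNat_of_nonneg h1, Int.emod_def]; ring

lemma rep_le {p : ℕ} (hp : 0 < p) {J n : ℕ} {a : ℤ} (hn : J ≤ n) (h : (p : ℤ) ∣ n - a) :
    ∃ t, n = rep p J a + t * p := by
  obtain ⟨h1, h2, u, hu⟩ := rep_spec hp J a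
  obtain ⟨v, hv⟩ := h
  have h3 : (0 : ℤ) ≤ v - u := by
    by_contra hh
    have : (p : ℤ) * (v - u) ≤ p * (-1) := mul_le_mul_of_nonneg_left (by omega) (by omega)
    have e : (p : ℤ) * (v - u) = n - rep p J a := by linarith
    omega
  refine ⟨(v - u).toNat, ?_⟩
  zify
  rw [Int.toNat_of_nonneg h3]; linarith

lemma interior {s : ℕ → F} {N p J : ℕ} {d : ℤ} (hD : ∀ i ≤ N, D s N i = d) (hs : Sy N (T s))
    (hp : 0 < p) (hN : (p + 1) * (J + p + 2 * J) + p * p ≤ N) (hJ : 0 < J)
    (hper : ∀ i, J ≤ i → i + p + J < N → s (i + p) = s i) (a b c : ℕ) (ha : J ≤ a) (hb : J ≤ b)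
    (hc : J ≤ c) (habc : a + b + c + 3 = N) : T s c b + T s c (b + 1) + T s c (b + 2) = 0 := by
  have B1 : ∀ c b, J ≤ b → b + p + c + J < N → T s c (b + p) = T s c b := by
    intro c
    induction c with
    | zero => intro b h1 h2; rw [T_zero, T_zero, hper b h1 (by omega)]
    | succ c ih =>
      intro b h1 h2
      rw [T_succ, T_succ, ih b h1 (by omega), add_right_comm b, ih (b + 1) (by omega) (by omega)]
  have L1 : ∀ t a b c, J ≤ a → J ≤ b → a + t * p + b + c + 1 = N → T s c b = T s c (b + t * p) := by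
    intro t
    induction t with
    | zero => simp
    | succ t ih =>
      intro a b c h1 h2 h3
      rw [Nat.succ_mul] at h3 ⊢
      rw [ih (a + p) b c (by omega) h2 (by omega), ← add_assoc, B1 c _ (by omega) (by omega)]
  let f : ℤ × ℤ → F := fun x =>
    T s (rep p J x.2) (N - 1 - rep p J x.1 - rep p J x.2)
  have cell : ∀ (a c : ℤ) (a' b' c' : ℕ), J ≤ a' → J ≤ b' → J ≤ c' → a' + b' + c' + 1 = N →
      (p : ℤ) ∣ a' - a → (p : ℤ) ∣ c' - c → f (a, c) = T s c' b' := by
    intro a c a' b' c' h1 h2 h3 h4 h5 h6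
    obtain ⟨t, ht⟩ := rep_le hp h1 h5
    obtain ⟨u, hu⟩ := rep_le hp h3 h6
    have r1 := (rep_spec hp J a).1
    have r2 := (rep_spec hp J c).1
    rw [L1 t _ b' c' r1 h2 (by omega), hs.mir (rep p J a) (b' + t * p) c' (by omega),
      L1 u _ (b' + t * p) (rep p J a) r2 (by omega) (by omega),
      hs.mir (rep p J c) (b' + t * p + u * p) (rep p J a) (by omega)]
    show T s (rep p J c) (N - 1 - rep p J a - rep p J c) = _
    congr 1; omega
  have hN' : 3 * J + 2 * p + 3 ≤ N := by nlinarith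
  have per : ∀ a c, f (a + p, c) = f (a, c) := fun a c => by
    have : rep p J (a + p) = rep p J a := by
      rw [rep, rep, add_sub_right_comm, Int.add_emod_right]
    simp only [f, this]
  have tor : Tor p (N - 2) f := by
    refine ⟨per, fun a c => ?_, fun a c => ?_, fun a c => ?_,
      ∑ i ∈ range p, io (T s J (J + i)), fun c => ?_⟩
    · obtain ⟨c1, c2, c3⟩ := rep_spec hp J c
      obtain ⟨a1, a2, a3⟩ := rep_spec hp J a
      obtain ⟨b, hb⟩ : ∃ b, rep p J a + b + rep p J c + 2 = N :=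
        ⟨N - 2 - rep p J a - rep p J c, by omega⟩
      rw [cell a (c + 1) _ b (rep p J c + 1) a1 (by omega) (by omega) (by omega) a3
          (by push_cast; rwa [add_sub_add_right_eq_sub]),
        cell (a + 1) c (rep p J a + 1) b _ (by omega) (by omega) c1 (by omega)
          (by push_cast; rwa [add_sub_add_right_eq_sub]) c3,
        cell a c _ (b + 1) _ a1 (by omega) c1 (by omega) a3 c3, T_succ]
    · obtain ⟨c1, c2, c3⟩ := rep_spec hp J c
      obtain ⟨a1, a2, a3⟩ := rep_spec hp J a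
      obtain ⟨b, hb⟩ : ∃ b, rep p J a + b + rep p J c + 1 = N :=
        ⟨N - 1 - rep p J a - rep p J c, by omega⟩
      rw [cell a c _ b _ a1 (by omega) c1 hb a3 c3,
        cell c a _ b _ c1 (by omega) a1 (by omega) c3 a3, hs.mir _ _ _ hb]
    · obtain ⟨c1, c2, c3⟩ := rep_spec hp J c
      obtain ⟨a1, a2, a3⟩ := rep_spec hp J a
      obtain ⟨b, hb⟩ : ∃ b, rep p J a + b + rep p J c + 2 = N :=
        ⟨N - 2 - rep p J a - rep p J c, by omega⟩
      have hd : (p : ℤ) ∣ b - ((N : ℤ) - 2 - a - c) := by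
        have := (dvd_add a3 c3).neg_right
        rwa [show (N : ℤ) = rep p J a + b + rep p J c + 2 by exact_mod_cast hb.symm,
          show (b : ℤ) - (rep p J a + b + rep p J c + 2 - 2 - a - c) =
            -(rep p J a - a + (rep p J c - c)) by ring]
      rw [cell a c _ (b + 1) _ a1 (by omega) c1 (by omega) a3 c3,
        cell _ c b (rep p J a + 1) _ (by omega) (by omega) c1 (by omega) hd c3,
        cell a _ _ (rep p J c + 1) b a1 (by omega) (by omega) (by omega) a3 hd]
      exact hs.tri _ _ _ hb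
    · obtain ⟨c1, c2, c3⟩ := rep_spec hp J c
      rw [← wt_eq (C := J + p) (c := rep p J c) hD hp hN (by omega) (by omega) (B1 _) (B1 _),
        sum_per (φ := fun a => io (f (a, c))) (fun a => by rw [per]),
        ← sum_per (φ := fun a => io (f (a, c))) (fun a => by rw [per])
          ((N - rep p J c - J - p : ℕ) : ℤ), ← sum_range_reflect]
      refine sum_congr rfl fun i hi => ?_
      have := mem_range.1 hi
      rw [← Nat.cast_add, cell _ c (N - rep p J c - J - p + (p - 1 - i)) (J + i) _ (by omega)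
        (by omega) c1 (by omega) (by simp) c3]
  have := tor.three hp a c
  rw [cell a c a (b + 2) c ha (by omega) hc (by omega) (by simp) (by simp),
    cell (a + 1) c (a + 1) (b + 1) c (by omega) (by omega) hc (by omega) (by simp) (by simp),
    cell (a + 2) c (a + 2) b c (by omega) hb hc (by omega) (by simp) (by simp)] at this
  linear_combination this

lemma boundary {s : ℕ → F} {M J : ℕ} {d : ℤ} (hD : ∀ i ≤ M + 2, D s (M + 2) i = d)
    {ν : ℕ → ℕ → F} (hν : ∀ c b, ν c b = T s c b + T s c (b + 1) + T s c (b + 2)) (hs : Sy M ν)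
    (hN : 12 * J + 7 ≤ M) (h1 : ∀ a b c, J ≤ a → J ≤ b → J ≤ c → a + b + c + 1 = M → ν c b = 0)
    (b : ℕ) (hb : b + 2 ≤ M) : ν 0 (b + 1) = 0 := by
  have P3 : ∀ c b, ν c b = ν c (b + 1) → T s c (b + 3) = T s c b := fun c b h => by
    rw [hν, hν] at h
    linear_combination -h
  have E2 : ∀ k c, J ≤ c + k → ∀ b, J ≤ b → b + c + J + 1 ≤ M → ν c b = 0 := by
    intro k
    induction k with
    | zero => exact fun c hc b h2 h3 => h1 (M - 1 - b - c) b c (by omega) h2 hc (by omega)
    | succ k ih =>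
      intro c hc
      by_cases hcJ : J ≤ c + k
      · exact ih c hcJ
      have h0 := ih (c + 1) (by omega)
      have st : ∀ b, J ≤ b → b + c + J + 2 ≤ M → ν c b = ν c (b + 1) := fun b h2 h3 =>
        eq_of_add_eq_zero_F (by rw [← hs.rule, h0 b h2 (by omega)])
      have w := wt_eq (q := 3) (J := J) (C := J) (c := c) (c' := c + 1) hD (by norm_num) (by omega)
        (by omega) (by omega) (fun b h2 h3 => P3 c b (st b h2 (by omega)))
        fun b h2 h3 => P3 _ b (by rw [h0 b h2 (by omega), h0 _ (by omega) (by omega)])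
      have w2 := congrArg (Int.cast : ℤ → F) w
      simp only [sum_range_succ, range_zero, sum_empty, zero_add, add_zero, Int.cast_add,
        io_cast, ← hν] at w2
      intro b h2
      induction b, h2 using Nat.le_induction with
      | base => intro _; rw [w2, h0 J le_rfl (by omega)]
      | succ b h2 ih2 => intro h3; rw [← st b h2 (by omega), ih2 (by omega)]
  have E3 : ∀ a b c, J ≤ b → J ≤ c → a + b + c + 1 = M → ν c b = 0 := fun a b c h2 h3 h4 => by
    rw [hs.mir a b c h4, E2 J a (by omega) b h2 (by omega)]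
  have E5 : ∀ c, J ≤ c → ∀ b, b + c + 2 ≤ M → ν c (b + 1) = 0 := by
    intro c hc
    induction c, hc using Nat.le_induction with
    | base =>
      intro b hb
      by_cases h2 : J ≤ b
      · exact E3 (M - 2 - b - J) _ _ (by omega) le_rfl (by omega)
      have := hs.tri (M - 2 - b - J) b J (by omega)
      rwa [E3 b (M - 2 - b - J + 1) J (by omega) le_rfl (by omega),
        E2 J b (by omega) _ (by omega) (by omega),
        add_zero, add_zero] at this
    | succ c hc ih => intro b hb; rw [hs.rule, ih b (by omega), ih _ (by omega), add_zero]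
  have E6 : ∀ a b c, J ≤ a → a + b + c + 2 = M → ν c (b + 1) = 0 := fun a b c h2 h3 => by
    rw [hs.mir a _ c (by omega), E5 a h2 b (by omega)]
  by_cases h2 : J ≤ b
  · have := hs.tri (M - 2 - b) b 0 (by omega)
    rwa [E6 b (M - 2 - b) 0 h2 (by omega), E5 b h2 0 (by omega), add_zero, add_zero] at this
  · exact E6 (M - 2 - b) b 0 (by omega) (by omega)

/-- the sequence of period three with zero sum -/
def P3 (u v : F) (i : ℕ) : F := if i % 3 = 1 then u else if i % 3 = 2 then v else u + v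

lemma P3_mod (u v : F) (i : ℕ) : P3 u v i = P3 u v (i % 3) := by simp [P3]

lemma P3_add (u v : F) (i : ℕ) : P3 u v (i + 2) = P3 u v i + P3 u v (i + 1) := by
  have : ∀ u v : F, ∀ r < 3, P3 u v ((r + 2) % 3) = P3 u v r + P3 u v ((r + 1) % 3) := by decide
  rw [P3_mod, P3_mod u v i, P3_mod u v (i + 1), Nat.add_mod, Nat.add_mod i 1]
  exact this u v _ (Nat.mod_lt _ (by norm_num))

lemma final {s : ℕ → F} {N : ℕ} {d : ℤ} (hD : ∀ i ≤ N, D s N i = d) (hN : 4 ≤ N)
    (h : ∀ b, b + 4 ≤ N → s (b + 1) + s (b + 2) + s (b + 3) = 0) :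
    (∀ i < N, s i = 0) ∨ (N % 3 = 0 ∧ ∀ i < N, s i = if i % 3 = 2 then 0 else 1) := by
  set P := P3 (s 1) (s 2) with hP
  have h0 : ∀ b, b + 2 < N → s (b + 1) = P (b + 1) ∧ s (b + 2) = P (b + 2) := by
    intro b
    induction b with
    | zero => exact fun _ => ⟨rfl, rfl⟩
    | succ b ih =>
      intro hb
      obtain ⟨e1, e2⟩ := ih (by omega)
      refine ⟨e2, ?_⟩
      rw [hP, P3_add, ← hP, ← e1, ← e2]
      exact (eq_of_add_eq_zero_F (h b (by omega))).symm
  have h1 : ∀ c b, b + 1 + c < N → T s c (b + 1) = P (1 + 2 * c + b) := by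
    intro c
    induction c with
    | zero =>
      intro b hb
      rw [T_zero, show 1 + 2 * 0 + b = b + 1 by ring]
      rcases b with _ | b
      · rfl
      · exact (h0 b (by omega)).2
    | succ c ih =>
      intro b hb
      rw [T_succ, ih b (by omega), ih _ (by omega), ← add_assoc, hP, ← P3_add]
      congr 1; ring
  have h2 : ∀ c < N, Row s c (N - c) + ∑ i ∈ range (1 + 2 * c), io (P i) =
      io (T s c 0) + ∑ i ∈ range (N + c), io (P i) := by
    intro c hc
    rw [Row, show N - c = N - c - 1 + 1 by omega, sum_range_succ',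
      show N + c = 1 + 2 * c + (N - c - 1) by omega, sum_range_add _ (1 + 2 * c),
      sum_congr rfl fun b hb => congrArg io (h1 c b (by have := mem_range.1 hb; omega))]
    ring
  have t1 : T s 1 0 = s 0 + P 1 := by rw [T_succ, T_zero, h1 0 0 (by omega)]
  have t2 : T s 2 0 = s 0 + P 1 + P 3 := by rw [T_succ, t1, h1 1 0 (by omega)]
  have t3 : T s 3 0 = s 0 + P 1 + P 3 + P 5 := by rw [T_succ, t2, h1 2 0 (by omega)]
  have d0 := hD 0 (by omega)
  have d1 := hD 1 (by omega)
  have d2 := hD 2 (by omega)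
  have d3 := hD 3 (by omega)
  have r0 := h2 0 (by omega)
  have r1 := h2 1 (by omega)
  have r2 := h2 2 (by omega)
  have r3 := h2 3 (by omega)
  have u1 := h1 0 0 (by omega)
  have u2 := h1 0 1 (by omega)
  have u3 := h1 1 0 (by omega)
  simp only [D, sum_range_succ, range_zero, sum_empty, zero_add, add_zero, Nat.reduceSub,
    Nat.reduceAdd, Nat.reduceMul, Nat.sub_zero, Nat.sub_self, t1, t2, t3] at d0 d1 d2 d3 r0 r1 r2 r3 u1 u2 u3
  rw [u1] at d2
  rw [u2, u3] at d3
  rw [T_zero] at d1 r0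
  have key : ∀ a u v : F, ∀ r < 3,
      io (P3 u v 1) + io (P3 u v 2) = io (a + P3 u v 1) + io (P3 u v r) →
      io a + io (P3 u v 3) + io (P3 u v 4) = io (P3 u v 1) + io (a + P3 u v 1 + P3 u v 3) +
        io (P3 u v ((r + 1) % 3)) →
      io (P3 u v 1) + io (a + P3 u v 1) + io (P3 u v 5) + io (P3 u v 6) =
        io (P3 u v 2) + io (P3 u v 3) + io (a + P3 u v 1 + P3 u v 3 + P3 u v 5) +
        io (P3 u v ((r + 2) % 3)) →
      (a = 0 ∧ u = 0 ∧ v = 0) ∨ (r = 0 ∧ a = 1 ∧ u = 1 ∧ v = 0) := by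
    intro a u v r hr
    revert a u v
    interval_cases r <;> decide
  have hs : ∀ i < N, s i = if i = 0 then s 0 else P i := by
    intro i hi
    rcases i with _ | i
    · rfl
    · rw [← T_zero s (i + 1), h1 0 i hi, if_neg i.succ_ne_zero]; congr 1; ring
  rcases key (s 0) (s 1) (s 2) (N % 3) (Nat.mod_lt _ (by norm_num))
    (by rw [← P3_mod, ← hP]; linarith)
    (by rw [Nat.mod_add_mod, ← P3_mod, ← hP]; linarith)
    (by rw [Nat.mod_add_mod, ← P3_mod, ← hP]; linarith) with ⟨a, b, c⟩ | ⟨r, a, b, c⟩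
  · left
    intro i hi
    rw [hs i hi, hP, a, b, c, P3]
    simp
  · refine Or.inr ⟨r, fun i hi => ?_⟩
    rw [hs i hi, hP, a, b, c, P3]
    split_ifs <;> first | rfl | omega

theorem periodic {s : ℕ → F} {N p j : ℕ} {d : ℤ} (hD : ∀ i ≤ N, D s N i = d) (hp : 0 < p)
    (hN : 3 * (p + 3) * (p + j + 1) ≤ N) (hper : ∀ i, j ≤ i → i + p + j < N → s (i + p) = s i) :
    (∀ i < N, s i = 0) ∨ (N % 3 = 0 ∧ ∀ i < N, s i = if i % 3 = 2 then 0 else 1) := by
  have hN2 : 12 * (j + 1) + 9 ≤ N := by nlinarith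
  rcases Int.even_or_odd d with ⟨k, rfl⟩ | hd
  swap
  · have := (odd_regular d hd hD).1
    omega
  have hpar : ∀ i ≤ N, ∑ a ∈ range i, T s a (i - 1 - a) + ∑ b ∈ range (N - i), T s i b = 0 := by
    intro i hi
    have := congrArg (Int.cast : ℤ → F) (hD i hi)
    simpa only [D, Row, Int.cast_add, Int.cast_sum, io_cast, add_self_F] using this
  have s1 : Sy N (T s) := by
    have := even_sy s N 0 hpar one_mem_Hom (map_one _) (map_one _) (map_one _)
    simp only [one_mul] at this
    exact this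
  obtain ⟨M, rfl⟩ : ∃ M, N = M + 2 := ⟨N - 2, by omega⟩
  have s2 := even_sy s M 2 hpar (q := y * y + y * z + z * z)
    (add_mem (add_mem (Hom_mul y_mem y_mem rfl) (Hom_mul y_mem z_mem rfl)) (Hom_mul z_mem z_mem rfl))
    (by simp only [map_add, map_mul, sg_y, sg_z]; rw [z_eq]; linear_combination (-x * y - y * y) * two_R)
    (by simp only [map_add, map_mul, ta_y, ta_z]; ring)
    (by simp only [map_add, map_mul, rh_y, rh_z]; rw [z_eq]; linear_combination (x * x - y * y) * two_R)
  have hν : ∀ c b, phi s ((y * y + y * z + z * z) * (x ^ c * y ^ b)) =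
      T s c b + T s c (b + 1) + T s c (b + 2) := fun c b => by
    rw [← phi_mon s c b 2, ← phi_mon s c (b + 1) 1, ← phi_mon s c (b + 2) 0, ← map_add, ← map_add]
    congr 1; ring
  refine final hD (by omega) fun b hb => ?_
  have := boundary (J := j + 1) hD hν s2 (by omega) (fun a b c h1 h2 h3 h4 => (hν c b).trans
    (interior hD s1 hp (by nlinarith) j.succ_pos (fun i h5 h6 => hper i (by omega) (by omega))
      a b c h1 h2 h3 (by omega))) b (by omega)
  simpa only [hν, T_zero] using this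

end Pool.Agent.MP_fd75d0_co.Per
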