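import Pool.Agent.Mg.Ffd75d0.Ge1a9a2

set_option autoImplicit false

namespace Pool.Agent.MP_fd75d0_co.Per

open Polynomial Finset

abbrev K := AlgebraicClosure (ZMod 2)
abbrev Arr := ℤ × ℤ → K

noncomputable def U : Module.End K Arr := LinearMap.funLeft K K fun x : ℤ × ℤ => (x.1 + 1, x.2)
noncomputable def W : Module.End K Arr := LinearMap.funLeft K K fun x : ℤ × ℤ => (x.1, x.2 + 1)
noncomputable def S : Module.End K Arr := LinearMap.funLeft K K fun x : ℤ × ℤ => (x.2, x.1)

lemma two_K : (2 : K) = 0 := by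
  have : ((2 : ℕ) : K) = 0 := CharP.cast_eq_zero K 2
  simpa using this

lemma U_pow (i : ℕ) (g : Arr) (a c : ℤ) : (U ^ i) g (a, c) = g (a + i, c) := by
  induction i generalizing a with
  | zero => simp
  | succ i ih =>
    rw [pow_succ', Module.End.mul_apply]
    show (U ^ i) g (a + 1, c) = _
    rw [ih]; push_cast; congr 2; ring

lemma aeval_inter (A B C : Module.End K Arr) (h : A * C = C * B) (P : K[X]) :
    aeval A P * C = C * aeval B P := by
  induction P using Polynomial.induction_on with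
  | C a => simp only [aeval_C]; exact Algebra.commutes a C
  | add p q hp hq => rw [map_add, map_add, add_mul, mul_add, hp, hq]
  | monomial n a ih =>
    rw [pow_succ, ← mul_assoc, map_mul, map_mul (aeval B), aeval_X, aeval_X, mul_assoc, h,
      ← mul_assoc, ih, mul_assoc]

/-- the Steinhaus rule -/
def Rule (g : Arr) : Prop := W g = (U + 1) g

lemma Rule.aeval {g : Arr} (h : Rule g) (P : K[X]) : Rule (aeval U P g) := by
  have h1 := aeval_inter U U W rfl P
  have h2 := aeval_inter U U (U + 1) (by rw [mul_add, add_mul, mul_one, one_mul]) P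
  unfold Rule at *
  rw [← Module.End.mul_apply, ← h1, Module.End.mul_apply, h, ← Module.End.mul_apply, h2,
    Module.End.mul_apply]

lemma Rule.aevalW {g : Arr} (h : Rule g) (P : K[X]) :
    Polynomial.aeval W P g = Polynomial.aeval U (P.comp (X + 1)) g := by
  induction P using Polynomial.induction_on with
  | C a => simp
  | add p q hp hq => rw [add_comp, map_add, map_add, LinearMap.add_apply, hp, hq]; rfl
  | monomial n a ih =>
    have e : (C a * X ^ (n + 1) : K[X]) = X * (C a * X ^ n) := by ring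
    rw [e, map_mul, mul_comp, map_mul (Polynomial.aeval U), Module.End.mul_apply,
      Module.End.mul_apply, ih, X_comp, aeval_X, h.aeval]
    simp

/-- the multiplicity of the point in the array is at most k -/
def Mu (g : Arr) (α : K) (k : ℕ) : Prop :=
  ∃ P : K[X], P.eval α ≠ 0 ∧ aeval U ((X - C α) ^ k * P) g = 0

lemma kill_mul {g : Arr} {P : K[X]} (h : aeval U P g = 0) (Q : K[X]) : aeval U (Q * P) g = 0 := by
  rw [map_mul, Module.End.mul_apply, h, map_zero]

lemma Mu.add {g h : Arr} {α : K} {k : ℕ} (h1 : Mu g α k) (h2 : Mu h α k) : Mu (g + h) α k := by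
  obtain ⟨P, hP, e1⟩ := h1
  obtain ⟨Q, hQ, e2⟩ := h2
  refine ⟨P * Q, by rw [eval_mul]; exact mul_ne_zero hP hQ, ?_⟩
  have f1 := kill_mul e1 Q
  have f2 := kill_mul e2 P
  rw [map_add, show (X - C α) ^ k * (P * Q) = Q * ((X - C α) ^ k * P) by ring, f1,
    show Q * ((X - C α) ^ k * P) = P * ((X - C α) ^ k * Q) by ring, f2, add_zero]

lemma Mu.swap {g : Arr} (hg : Rule g) {α : K} {k : ℕ} (h : Mu g (α + 1) k) : Mu (S g) α k := by
  obtain ⟨P, hP, e⟩ := h
  refine ⟨P.comp (X + 1), by simpa [eval_comp] using hP, ?_⟩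
  have e1 : (X - C α) ^ k * P.comp (X + 1) = ((X - C (α + 1)) ^ k * P).comp (X + 1) := by
    simp only [mul_comp, pow_comp, sub_comp, X_comp, C_comp, map_add, map_one, add_comp, one_comp]
    ring
  have e2 : (X + 1 : K[X]).comp (X + 1) = X := by
    have : (2 : K[X]) = 0 := by rw [← map_ofNat C 2, two_K, map_zero]
    simp only [add_comp, X_comp, one_comp]
    linear_combination this
  rw [← Module.End.mul_apply, aeval_inter U W S rfl, Module.End.mul_apply, hg.aevalW, e1,
    comp_assoc, e2, comp_X, e, map_zero]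

lemma Mu.of_kill {g : Arr} {α : K} {k : ℕ} {P : K[X]} (hP : P ≠ 0) (h : aeval U P g = 0)
    (hk : P.rootMultiplicity α ≤ k) : Mu g α k := by
  obtain ⟨Q, h1, h2⟩ := exists_eq_pow_rootMultiplicity_mul_and_not_dvd P hP α
  refine ⟨Q, fun h0 => h2 (dvd_iff_isRoot.2 h0), ?_⟩
  obtain ⟨l, rfl⟩ := Nat.exists_eq_add_of_le hk
  have := kill_mul h ((X - C α) ^ l)
  rw [pow_add, show (X - C α) ^ rootMultiplicity α P * (X - C α) ^ l * Q =
    (X - C α) ^ l * ((X - C α) ^ rootMultiplicity α P * Q) by ring, ← h1]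
  exact this

lemma kill_of_Mu {g : Arr} {Q : K[X]}
    (hm : ∀ α, Mu g α (Q.rootMultiplicity α)) : aeval U Q g = 0 := by
  let J : Ideal K[X] :=
    { carrier := {R | aeval U (R * Q) g = 0}
      add_mem' := fun {a b} ha hb => by
        simp only [Set.mem_ofPred_eq] at ha hb ⊢
        rw [add_mul, map_add, LinearMap.add_apply, ha, hb, add_zero]
      zero_mem' := by simp
      smul_mem' := fun c a ha => by
        simp only [Set.mem_ofPred_eq, smul_eq_mul] at ha ⊢
        rw [mul_assoc]; exact kill_mul ha c }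
  have hJ : ∀ R, R ∈ J ↔ aeval U (R * Q) g = 0 := fun R => Iff.rfl
  set φ := Submodule.IsPrincipal.generator J
  have hd : ∀ R, R ∈ J ↔ φ ∣ R := fun R => Submodule.IsPrincipal.mem_iff_generator_dvd J
  by_cases hu : φ.degree = 0
  · have : (1 : K[X]) ∈ J := (hd 1).2 (isUnit_iff_degree_eq_zero.2 hu).dvd
    simpa using (hJ 1).1 this
  · exfalso
    obtain ⟨α, hα⟩ := IsAlgClosed.exists_root φ hu
    obtain ⟨R, hR, e⟩ := hm α
    obtain ⟨Q', hQ'⟩ := pow_rootMultiplicity_dvd Q α
    have : R ∈ J := (hJ R).2 (by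
      have := kill_mul e Q'
      rwa [show Q' * ((X - C α) ^ rootMultiplicity α Q * R) =
        R * ((X - C α) ^ rootMultiplicity α Q * Q') by ring, ← hQ'] at this)
    exact hR (hα.dvd ((hd R).1 this))

lemma kill_per {p : ℕ} {g : Arr} (h : ∀ a c, g (a + p, c) = g (a, c)) :
    aeval U (X ^ p - 1 : K[X]) g = 0 := by
  funext ⟨a, c⟩
  simp only [map_sub, map_pow, aeval_X, map_one, LinearMap.sub_apply, Module.End.one_apply,
    Pi.sub_apply, U_pow, h, sub_self, Pi.zero_apply]

lemma per_int {β : Type} {p : ℕ} {φ : ℤ → β} (h : ∀ a, φ (a + p) = φ a) (a t : ℤ) :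
    φ (a + p * t) = φ a := by
  have := (show Function.Periodic φ p from h).int_mul t a
  rwa [Int.cast_id, mul_comm] at this

lemma row_zero {p : ℕ} (hp : 0 < p) {g : Arr} (hr : Rule g) (h : ∀ a c, g (a, c + p) = g (a, c))
    (h0 : ∀ a, g (a, 0) = 0) : g = 0 := by
  have h1 : ∀ n : ℕ, ∀ a, g (a, n) = 0 := by
    intro n
    induction n with
    | zero => exact h0
    | succ n ih =>
      intro a
      have := congrFun hr (a, n)
      have e : g (a, n + 1) = g (a + 1, n) + g (a, n) := this
      push_cast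
      rw [e, ih, ih, add_zero]
  funext ⟨a, c⟩
  have h2 := per_int (φ := fun c : ℤ => g (a, c)) (h a) (c % p) (c / p)
  have h3 := h1 (c % p).toNat a
  rw [Int.toNat_of_nonneg (Int.emod_nonneg _ (by omega))] at h3
  rw [Int.emod_add_mul_ediv] at h2
  exact h2.trans h3

noncomputable def yp (p : ℕ) (h : Arr) : K[X] := ∑ i ∈ range p, C (h (-(i : ℤ), 0)) * X ^ i

lemma yp_apply (p : ℕ) (h g : Arr) (a c : ℤ) :
    aeval U (yp p h) g (a, c) = ∑ i ∈ range p, h (-(i : ℤ), 0) * g (a + i, c) := by
  simp only [yp, map_sum, map_mul, aeval_C, map_pow, aeval_X, LinearMap.sum_apply, Finset.sum_apply,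
    Module.End.mul_apply, Module.algebraMap_end_apply, Pi.smul_apply, smul_eq_mul, U_pow]

lemma kill_of_dvd {p : ℕ} (hp : 0 < p) {h : Arr} (hr : Rule h)
    (h1 : ∀ a c, h (a + p, c) = h (a, c)) (h2 : ∀ a c, h (a, c + p) = h (a, c)) {P : K[X]}
    (hd : (X ^ p - 1 : K[X]) ∣ P * yp p h) : aeval U P h = 0 := by
  classical
  let δ : Arr := fun x => if (p : ℤ) ∣ x.1 then 1 else 0
  let Z : Module.End K Arr := LinearMap.funLeft K K fun x : ℤ × ℤ => (x.1, 0)
  let V : Module.End K Arr := LinearMap.funLeft K K fun x : ℤ × ℤ => (x.1, x.2 + p)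
  have e1 : aeval U (X ^ p - 1 : K[X]) δ = 0 := kill_per fun a c => by
    simp only [δ, dvd_add_self_right]
  have e2 : aeval U (yp p h) δ = Z h := by
    funext ⟨a, c⟩
    have hn := Int.emod_nonneg (-a) (show (p : ℤ) ≠ 0 by omega)
    have hl := Int.emod_lt_of_pos (-a) (show (0 : ℤ) < p by omega)
    have hq := Int.emod_def (-a) p
    rw [yp_apply, sum_eq_single ((-a) % p).toNat]
    · have h3 := per_int (φ := fun a : ℤ => h (a, 0)) (fun a => h1 a 0) a (-a / p)
      rw [Int.toNat_of_nonneg hn]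
      have h4 : (p : ℤ) ∣ a + -a % p := ⟨-(-a / p), by rw [hq]; ring⟩
      simp only [δ, h4, if_true, mul_one]
      show h (-(-a % p), 0) = h (a, 0)
      rw [← h3, hq]; congr 2; ring
    · intro i hi hne
      have : ¬ (p : ℤ) ∣ a + i := by
        rintro ⟨t, ht⟩
        apply hne
        have hi' := mem_range.1 hi
        have : -a % p = i := by
          rw [show -a = i + p * (-t) by linarith, Int.add_mul_emod_self_left]
          exact Int.emod_eq_of_lt (by omega) (by omega)
        omega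
      simp only [δ, this, if_false, mul_zero]
    · intro hh
      exact absurd (mem_range.2 (by omega)) hh
  obtain ⟨Q, hQ⟩ := hd
  have e3 : Z (aeval U P h) = 0 := by
    rw [← Module.End.mul_apply, ← aeval_inter U U Z rfl, Module.End.mul_apply, ← e2,
      ← Module.End.mul_apply, ← map_mul, hQ, mul_comm]
    exact kill_mul e1 Q
  have e4 : V (aeval U P h) = aeval U P h := by
    rw [← Module.End.mul_apply, ← aeval_inter U U V rfl, Module.End.mul_apply]
    congr 1
    funext ⟨a, c⟩
    exact h2 a c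
  exact row_zero hp (hr.aeval P) (fun a c => congrFun e4 (a, c)) fun a => congrFun e3 (a, 0)

noncomputable def Qp : K[X] := X ^ 2 + X + 1

lemma Xp_ne {p : ℕ} (hp : 0 < p) : (X ^ p - 1 : K[X]) ≠ 0 := X_pow_sub_C_ne_zero hp 1

lemma Qp_sep : Qp.Separable := by
  have : (2 : K[X]) = 0 := by rw [← map_ofNat C 2, two_K, map_zero]
  have e : derivative Qp = 1 := by
    simp only [Qp, map_add, derivative_X_pow, derivative_X, derivative_one, map_natCast]
    push_cast
    linear_combination X ^ (2 - 1) * this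
  rw [separable_def, e]
  exact isCoprime_one_right

lemma pars {p : ℕ} (hp : 0 < p) {g h : Arr} (hr : Rule h)
    (h1 : ∀ a c, h (a + p, c) = h (a, c)) (h2 : ∀ a c, h (a, c + p) = h (a, c))
    (hk : aeval U (Qp * yp p h) g = 0) {β : K} {k : ℕ} (m1 : ¬ Mu g β k) (m2 : ¬ Mu h β k) :
    2 * (k + 1) ≤ (X ^ p - 1 : K[X]).rootMultiplicity β + Qp.rootMultiplicity β := by
  obtain ⟨P, e1, e2⟩ := exists_eq_pow_rootMultiplicity_mul_and_not_dvd _ (Xp_ne hp) β
  set μ := (X ^ p - 1 : K[X]).rootMultiplicity β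
  have key : ¬ (X - C β) ^ (μ - k) ∣ yp p h := by
    rintro ⟨Y, hY⟩
    refine m2 ⟨P, fun h0 => e2 (dvd_iff_isRoot.2 h0), kill_of_dvd hp hr h1 h2 ?_⟩
    rw [e1, hY, show (X - C β) ^ k * P * ((X - C β) ^ (μ - k) * Y) =
      (X - C β) ^ (k + (μ - k)) * P * Y by ring]
    exact (mul_dvd_mul_right (pow_dvd_pow _ (by omega)) P).mul_right Y
  have hy : yp p h ≠ 0 := fun h0 => key (h0 ▸ dvd_zero _)
  have hlt : (yp p h).rootMultiplicity β < μ - k := by
    by_contra hh
    exact key ((pow_dvd_pow _ (not_lt.1 hh)).trans (pow_rootMultiplicity_dvd _ _))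
  have hne := mul_ne_zero Qp_sep.ne_zero hy
  have h3 : ¬ (Qp * yp p h).rootMultiplicity β ≤ k := fun hh => m1 (Mu.of_kill hne hk hh)
  rw [rootMultiplicity_mul hne] at h3
  omega

lemma sum_shift {β : Type} [AddCommGroup β] {p : ℕ} {φ : ℤ → β} (h : ∀ a, φ (a + p) = φ a) :
    ∑ i ∈ range p, φ (i + 1) = ∑ i ∈ range p, φ i := by
  have h1 := sum_range_succ (fun i : ℕ => φ i) p
  have h2 := sum_range_succ' (fun i : ℕ => φ i) p
  have h3 := h 0
  simp only [zero_add, Nat.cast_add, Nat.cast_one, Nat.cast_zero] at h1 h2 h3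
  rw [h1, h3] at h2
  exact (add_right_cancel h2).symm

lemma io_add (a b : F) : io (a + b) = io a + io b - 2 * io (a * b) := by revert a b; decide

/-- hypotheses on a doubly periodic array -/
structure Tor (p : ℕ) (M : ℤ) (f : ℤ × ℤ → F) : Prop where
  per : ∀ a c, f (a + p, c) = f (a, c)
  rule : ∀ a c, f (a, c + 1) = f (a + 1, c) + f (a, c)
  sym : ∀ a c, f (a, c) = f (c, a)
  tri : ∀ a c, f (a, c) + f (M - a - c, c) + f (a, M - a - c) = 0
  wt : ∃ w : ℤ, ∀ c, ∑ i ∈ range p, io (f (M + i, c)) = w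

lemma Tor.corr {p : ℕ} {M : ℤ} {f : ℤ × ℤ → F} (h : Tor p M f) (n : ℕ) :
    ∑ i ∈ range p, f (M + i, 0) * (f (M + i + n, 0) + f (M + i + n + 1, 0) + f (M + i + n + 2, 0))
      = 0 := by
  obtain ⟨w, hw⟩ := h.wt
  let γ : ℤ → ℤ → F := fun c n => ∑ i ∈ range p, f (M + i, c) * f (M + i + n, c)
  have g1 : ∀ c, 2 * ∑ i ∈ range p, io (f (M + i, c) * f (M + i + 1, c)) = w := by
    intro c
    have e1 := hw (c + 1)
    have e2 := sum_shift (p := p) (φ := fun i => io (f (M + i, c))) fun a => by
      simp only [← add_assoc, h.per]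
    simp only [h.rule, io_add, sum_sub_distrib, sum_add_distrib, ← mul_sum, hw] at e1
    simp only [← add_assoc, hw] at e2
    simp only [mul_comm (f (M + _ + 1, c))] at e1
    linarith
  have g2 : ∀ c, γ c 1 = γ 0 1 := by
    intro c
    have e : ∑ i ∈ range p, io (f (M + i, c) * f (M + i + 1, c)) =
        ∑ i ∈ range p, io (f (M + i, 0) * f (M + i + 1, 0)) := by linarith [g1 c, g1 0]
    have := congrArg (Int.cast : ℤ → F) e
    simpa only [Int.cast_sum, io_cast] using this
  have g0 : ∀ c, γ c 0 = 0 := by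
    intro c
    have e := congrArg (Int.cast : ℤ → F) ((hw c).trans (g1 c).symm)
    have e2 : ∀ t : F, t * t = t := by decide
    have e3 : ((2 : ℤ) : F) = 0 := by decide
    simpa only [γ, Int.cast_sum, io_cast, Int.cast_mul, e3, zero_mul, add_zero, e2] using e
  have g3 : ∀ c n, γ (c + 1) (n + 1) = γ c (n + 2) + γ c n := by
    intro c n
    have e1 := sum_shift (p := p) (φ := fun i => f (M + i, c) * f (M + i + (n + 1), c)) fun a => by
      rw [← add_assoc, h.per, add_right_comm (M + a), h.per]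
    have e2 := sum_shift (p := p) (φ := fun i => f (M + i, c) * f (M + i + n, c)) fun a => by
      rw [← add_assoc, h.per, add_right_comm (M + a), h.per]
    have e3 := add_self_F (γ c (n + 1))
    have e4 : γ (c + 1) (n + 1) =
        ∑ i ∈ range p, f (M + (i + 1), c) * f (M + (i + 1) + (n + 1), c) +
        ∑ i ∈ range p, f (M + (i + 1), c) * f (M + (i + 1) + n, c) + γ c (n + 2) + γ c (n + 1) := by
      simp only [γ, h.rule, ← sum_add_distrib]
      refine sum_congr rfl fun i _ => ?_
      ring_nf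
    rw [e4, e1, e2]
    simp only [γ] at e3 ⊢
    linear_combination e3
  have g4 : ∀ n : ℕ, (∀ c, γ c n = γ 0 n) ∧ ∀ c, γ c (n + 1) = γ 0 (n + 1) := by
    intro n
    induction n with
    | zero => exact ⟨fun c => by simp only [Nat.cast_zero, g0], fun c => by simpa using g2 c⟩
    | succ n ih =>
      refine ⟨by simpa using ih.2, fun c => ?_⟩
      have e1 := g3 c n
      have e2 := g3 0 n
      rw [ih.2, ih.1] at e1 e2
      push_cast
      rw [add_assoc, one_add_one_eq_two]
      linear_combination e2 - e1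
  have e := g3 0 n
  rw [(g4 n).2] at e
  have e3 := add_self_F (γ 0 (n + 1))
  simp only [γ, ← add_assoc] at e e3
  simp only [mul_add, sum_add_distrib]
  linear_combination e3 - e

/-- the array with values in the algebraic closure -/
noncomputable def up (f : ℤ × ℤ → F) : Arr := fun x => algebraMap F K (f x)

lemma Tor.step {p : ℕ} {M : ℤ} {f : ℤ × ℤ → F} (h : Tor p M f) (hp : 0 < p) {α : K} {k : ℕ}
    (hm : ¬ Mu (up f) α k) : ∃ β, Qp.eval β = Qp.eval α ∧
      2 * (k + 1) ≤ (X ^ p - 1 : K[X]).rootMultiplicity β + Qp.rootMultiplicity β := by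
  have per2 : ∀ a c, f (a, c + p) = f (a, c) := fun a c => by rw [h.sym, h.per, h.sym]
  let g : Arr := up fun x => f (M - x.1 - x.2, x.2)
  have r1 : Rule (up f) := by
    funext ⟨a, c⟩
    show algebraMap F K _ = algebraMap F K _ + algebraMap F K _
    rw [← map_add]; exact congrArg _ (h.rule a c)
  have r2 : Rule g := by
    funext ⟨a, c⟩
    show algebraMap F K (f (M - a - (c + 1), c + 1)) =
      algebraMap F K (f (M - (a + 1) - c, c)) + algebraMap F K (f (M - a - c, c))
    rw [← map_add, h.rule, add_comm]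
    congr 4 <;> ring
  have p1 : ∀ a c, g (a + p, c) = g (a, c) := fun a c => by
    show algebraMap F K (f (M - (a + p) - c, c)) = algebraMap F K (f (M - a - c, c))
    rw [← h.per]; congr 3; ring
  have p2 : ∀ a c, g (a, c + p) = g (a, c) := fun a c => by
    show algebraMap F K (f (M - a - (c + p), c + p)) = algebraMap F K (f (M - a - c, c))
    rw [← h.per, per2]; congr 3; ring
  have s1 : S (up f) = up f := by
    funext ⟨a, c⟩; exact congrArg (algebraMap F K) (h.sym c a)
  have s2 : up f = g + S g := by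
    funext ⟨a, c⟩
    show algebraMap F K _ = algebraMap F K (f (M - a - c, c)) + algebraMap F K (f (M - c - a, a))
    rw [← map_add, h.sym _ a, sub_right_comm M c a]
    exact congrArg _ (eq_of_add_eq_zero_F (by rw [← add_assoc]; exact h.tri a c))
  have hk : aeval U (Qp * yp p g) (up f) = 0 := by
    let V : Module.End K Arr := LinearMap.funLeft K K fun x : ℤ × ℤ => (x.1, x.2 + p)
    have e4 : ∀ P : K[X], V (aeval U P (up f)) = aeval U P (up f) := fun P => by
      rw [← Module.End.mul_apply, ← aeval_inter U U V rfl, Module.End.mul_apply]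
      congr 1
      funext ⟨a, c⟩
      exact congrArg (algebraMap F K) (per2 a c)
    refine row_zero hp (r1.aeval _) (fun a c => congrFun (e4 _) (a, c)) fun a => ?_
    rw [mul_comm, map_mul, Module.End.mul_apply, yp_apply]
    have e := congrArg (algebraMap F K) (h.corr ((a - M) % p).toNat)
    rw [map_sum, map_zero, Int.toNat_of_nonneg (Int.emod_nonneg _ (by omega))] at e
    rw [← e]
    refine sum_congr rfl fun i _ => ?_
    have e5 : ∀ t : ℤ, f (M + i + (a - M) % p + t, 0) = f (a + i + t, 0) := fun t => by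
      rw [← per_int (φ := fun a : ℤ => f (a, 0)) (fun a => h.per a 0) _ ((a - M) / p), Int.emod_def]
      congr 2; ring
    have e6 := e5 0
    rw [add_zero, add_zero] at e6
    rw [e5, e5, e6]
    simp only [Qp, map_add, map_pow, aeval_X, map_one, LinearMap.add_apply, Pi.add_apply, U_pow,
      map_mul, Module.End.one_apply, g, up, sub_neg_eq_add, sub_zero, Nat.cast_ofNat]
    show _ * (_ + algebraMap F K (f (a + i + 1, 0)) + _) = _
    ring
  by_cases m2 : Mu g α k
  · refine ⟨α + 1, ?_, pars hp r2 p1 p2 hk (fun m => hm (s1 ▸ m.swap r1)) fun m => hm ?_⟩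
    · simp only [Qp, eval_add, eval_pow, eval_X, eval_one]
      linear_combination (α + 1) * two_K
    · rw [s2]; exact m2.add (m.swap r2)
  · exact ⟨α, rfl, pars hp r2 p1 p2 hk hm m2⟩

lemma rm_pow {P : K[X]} (hP : P ≠ 0) (β : K) (n : ℕ) :
    (P ^ n).rootMultiplicity β = n * P.rootMultiplicity β := by
  induction n with
  | zero => rw [pow_zero, ← C_1, rootMultiplicity_C, zero_mul]
  | succ n ih => rw [pow_succ, rootMultiplicity_mul (mul_ne_zero (pow_ne_zero _ hP) hP), ih]; ring

lemma up_inj {a b : F} (h : algebraMap F K a = algebraMap F K b) : a = b :=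
  (algebraMap F K).injective h

theorem Tor.main (e : ℕ) {q : ℕ} (hq : Odd q) {M : ℤ} {f : ℤ × ℤ → F} (h : Tor (2 ^ e * q) M f)
    (a c : ℤ) : f (a, c) + f (a + 1, c) + f (a + 2, c) = 0 := by
  have hq0 := hq.pos
  have hs : ∀ β, (X ^ q - 1 : K[X]).rootMultiplicity β ≤ 1 := fun β =>
    rootMultiplicity_le_one_of_separable (separable_X_pow_sub_C' 2 q (1 : K)
      (by rw [← even_iff_two_dvd]; exact Nat.not_even_iff_odd.2 hq) one_ne_zero) β
  have hQ : ∀ β, Qp.rootMultiplicity β ≤ 1 := rootMultiplicity_le_one_of_separable Qp_sep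
  have hX : ∀ (e : ℕ) (β : K), (X ^ (2 ^ e * q) - 1 : K[X]).rootMultiplicity β =
      2 ^ e * (X ^ q - 1 : K[X]).rootMultiplicity β := fun e β => by
    rw [← rm_pow (Xp_ne hq0), sub_pow_char_pow, one_pow, ← pow_mul, mul_comm]
  induction e with
  | zero =>
    have hk : aeval U Qp (up f) = 0 := kill_of_Mu fun α => by
      by_contra hm
      obtain ⟨β, h1, h2⟩ := h.step (by positivity) hm
      have h3 := hs β
      have h4 := hQ β
      rw [hX, pow_zero, one_mul] at h2
      have h5 : Qp.rootMultiplicity α = 0 := by omega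
      have h6 : Qp.rootMultiplicity β = 0 := rootMultiplicity_eq_zero fun hh =>
        Qp_sep.ne_zero (rootMultiplicity_eq_zero_iff.1 h5 (h1.symm.trans hh))
      omega
    have := congrFun hk (a, c)
    simp only [Qp, map_add, map_pow, aeval_X, map_one, LinearMap.add_apply, Pi.add_apply, U_pow,
      Module.End.one_apply, Nat.cast_ofNat, Pi.zero_apply] at this
    apply up_inj
    rw [map_add, map_add, map_zero, ← this]
    show _ = algebraMap F K _ + algebraMap F K (f (a + 1, c)) + algebraMap F K _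
    ring
  | succ e ih =>
    have hp : 0 < 2 ^ (e + 1) * q := by positivity
    have hk : aeval U (X ^ (2 ^ e * q) - 1 : K[X]) (up f) = 0 := kill_of_Mu fun α => by
      by_contra hm
      obtain ⟨β, -, h2⟩ := h.step hp hm
      have h3 := hs β
      have h4 := hQ β
      have h5 := hs α
      rcases Nat.eq_zero_or_pos ((X ^ q - 1 : K[X]).rootMultiplicity α) with h6 | h6
      · exact hm (Mu.of_kill (Xp_ne hp) (kill_per fun a c => congrArg (algebraMap F K) (h.per a c))
          (by rw [hX, h6]; exact Nat.zero_le _))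
      · rw [hX, hX, pow_succ, show (X ^ q - 1 : K[X]).rootMultiplicity α = 1 by omega] at h2
        nlinarith [Nat.mul_le_mul_left (2 ^ e * 2) h3]
    have per : ∀ a c, f (a + (2 ^ e * q : ℕ), c) = f (a, c) := fun a c => by
      have := congrFun hk (a, c)
      simp only [map_sub, map_pow, aeval_X, map_one, LinearMap.sub_apply, Module.End.one_apply,
        Pi.sub_apply, U_pow, Pi.zero_apply, sub_eq_zero] at this
      exact up_inj this
    obtain ⟨w, hw⟩ := h.wt
    refine ih ⟨per, h.rule, h.sym, h.tri, w / 2, fun c => ?_⟩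
    have := hw c
    rw [show 2 ^ (e + 1) * q = 2 ^ e * q + 2 ^ e * q by ring, sum_range_add] at this
    have e2 : ∀ i : ℕ, f (M + (2 ^ e * q + i : ℕ), c) = f (M + i, c) := fun i => by
      rw [← per (M + i), Nat.cast_add]; congr 2; ring
    simp only [e2] at this
    omega

theorem Tor.three {p : ℕ} (hp : 0 < p) {M : ℤ} {f : ℤ × ℤ → F} (h : Tor p M f) (a c : ℤ) :
    f (a, c) + f (a + 1, c) + f (a + 2, c) = 0 := by
  obtain ⟨e, q, hq, rfl⟩ := Nat.exists_eq_two_pow_mul_odd hp.ne'
  exact h.main e hq a c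

end Pool.Agent.MP_fd75d0_co.Per
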